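import Pool.Agent.N145.SX.Stm2
import Pool.Agent.N145.PC.Str1
import Pool.Agent.Y944.NT.NLa

/-!
Project SX (helper145), part CSTR (helper27): correspondences of small degree on unirational
varieties are constant.
-/

set_option autoImplicit false
set_option linter.overlappingInstances false

open Polynomial IntermediateField Module

namespace Pool.Agent.N27.SX

open Pool.Agent.N145.SX
open Pool.Agent.N145.PC (adj_le)
open Pool.Agent.Y944.NT (exists_der_indep)

/-! ### Constants of derivations -/

/-- the constants of a derivation -/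
def con {Λ Ω : Type} [Field Λ] [Field Ω] [Algebra Λ Ω] (D : Derivation Λ Ω Ω) :
    IntermediateField Λ Ω where
  carrier := {y | D y = 0}
  mul_mem' := by
    intro a b ha hb
    change D (a * b) = 0
    rw [D.leibniz, show D a = 0 from ha, show D b = 0 from hb, smul_zero, smul_zero, add_zero]
  add_mem' := by
    intro a b ha hb
    change D (a + b) = 0
    rw [map_add, show D a = 0 from ha, show D b = 0 from hb, add_zero]
  algebraMap_mem' := fun c => D.map_algebraMap c
  inv_mem' := by
    intro a ha
    change D a⁻¹ = 0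
    rw [D.leibniz_inv, show D a = 0 from ha, smul_zero]

theorem mem_con {Λ Ω : Type} [Field Λ] [Field Ω] [Algebra Λ Ω] (D : Derivation Λ Ω Ω) (y : Ω) :
    y ∈ con D ↔ D y = 0 := Iff.rfl

/-- elements algebraic over the constants are constant -/
theorem con_closed {Λ Ω : Type} [Field Λ] [CharZero Λ] [Field Ω] [Algebra Λ Ω]
    (D : Derivation Λ Ω Ω) {y : Ω} (hy : IsAlgebraic (con D) y) : D y = 0 := by
  have h0 : CharZero (con D) := charZero_of_injective_algebraMap (algebraMap Λ (con D)).injective
  let D' : Derivation (con D) Ω Ω :=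
    Derivation.mk'
      { toFun := D
        map_add' := fun a b => map_add D a b
        map_smul' := fun c a => by
          change D ((c : Ω) * a) = (c : Ω) * D a
          rw [D.leibniz, (mem_con D c).1 c.2, smul_zero, add_zero, smul_eq_mul] }
      (fun a b => D.leibniz a b)
  have hD' : ∀ a, D' a = D a := fun _ => rfl
  have h1 := D'.map_aeval (minpoly (con D) y) y
  rw [minpoly.aeval, map_zero] at h1
  have h2 : (minpoly (con D) y).Separable := (minpoly.irreducible hy.isIntegral).separable
  have h3 : aeval y (derivative (minpoly (con D) y)) ≠ 0 :=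
    h2.aeval_derivative_ne_zero (minpoly.aeval _ _)
  rw [← hD']
  exact (smul_eq_zero.1 h1.symm).resolve_left h3

/-- a derivation which vanishes on generators of a field vanishes on its algebraic closure -/
theorem con_adjoin {Λ Ω : Type} [Field Λ] [CharZero Λ] [Field Ω] [Algebra Λ Ω]
    (D : Derivation Λ Ω Ω) {S : Set Ω} (hS : ∀ w ∈ S, D w = 0) {y : Ω}
    (hy : IsAlgebraic (IntermediateField.adjoin Λ S) y) : D y = 0 := by
  have h1 : IntermediateField.adjoin Λ S ≤ con D := by
    rw [IntermediateField.adjoin_le_iff]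
    exact hS
  apply con_closed D
  obtain ⟨p, hp0, hp⟩ := hy
  refine ⟨p.map (IntermediateField.inclusion h1 : _ →+* _), ?_, ?_⟩
  · intro h
    exact hp0 ((Polynomial.map_eq_zero _).1 h)
  · rw [aeval_def, eval₂_map]
    exact hp

/-! ### The one dimensional case -/

/-- relative algebraic closures in an algebraically closed field -/
theorem clo {Λ Ω : Type} [Field Λ] [Field Ω] [Algebra Λ Ω] [IsAlgClosed Ω]
    (A : IntermediateField Λ Ω) :
    ∃ B : IntermediateField Λ Ω, IsAlgClosed B ∧ A ≤ B ∧ ∀ y : Ω, y ∈ B ↔ IsAlgebraic A y := by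
  have h : IsAlgClosed (algebraicClosure A Ω) :=
    (algebraicClosure.isAlgClosure A Ω).isAlgClosed
  refine ⟨(algebraicClosure A Ω).restrictScalars Λ, h, ?_, fun y => ?_⟩
  · intro y hy
    rw [IntermediateField.mem_restrictScalars]
    exact (algebraicClosure A Ω).algebraMap_mem ⟨y, hy⟩
  · rw [IntermediateField.mem_restrictScalars]
    exact mem_algebraicClosure_iff

theorem clo_fin {Λ Ω : Type} [Field Λ] [Field Ω] [Algebra ℂ Λ] [Algebra ℂ Ω] [Algebra Λ Ω]
    [IsScalarTower ℂ Λ Ω] {N : ℕ} (hN : Algebra.trdeg ℂ Λ = N) {S : Set Ω} (hS : S.Finite)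
    (B : IntermediateField Λ Ω) (hAB : IntermediateField.adjoin Λ S ≤ B)
    (hB : ∀ y ∈ B, IsAlgebraic (IntermediateField.adjoin Λ S) y) :
    ∃ N' : ℕ, Algebra.trdeg ℂ B = N' := by
  let A := IntermediateField.adjoin Λ S
  let i1 : Algebra A B := (IntermediateField.inclusion hAB).toAlgebra
  have i2 : IsScalarTower Λ A B := IsScalarTower.of_algebraMap_eq fun _ => rfl
  have i2' : IsScalarTower A B Ω := IsScalarTower.of_algebraMap_eq fun _ => rfl
  have i3 : Algebra.IsAlgebraic A B := by
    refine ⟨fun y => ?_⟩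
    have h1 := hB y y.2
    exact (isAlgebraic_algebraMap_iff (algebraMap B Ω).injective).1 h1
  have i4 : Algebra.EssFiniteType Λ A := by
    rw [IntermediateField.essFiniteType_iff]
    exact IntermediateField.fg_adjoin_of_finite hS
  have i5 : FinTrdeg Λ B := FinTrdeg.trans Λ A B
  have i6 : FinTrdeg ℂ Λ := by
    rw [finTrdeg_iff_trdeg, hN]
    exact Cardinal.natCast_lt_aleph0
  have i7 : FinTrdeg ℂ B := FinTrdeg.trans ℂ Λ B
  exact Cardinal.lt_aleph0.1 (trdeg_lt_aleph0 ℂ B)

/-- the coordinates are constant in every direction -/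
theorem dir (h : S_CST) (E Λ Ω : Type) [Field E] [Field Λ] [Field Ω] [Algebra ℂ E] [Algebra ℂ Λ]
    [Algebra ℂ Ω] [Algebra Λ Ω] [IsScalarTower ℂ Λ Ω] [Algebra.EssFiniteType ℂ E] [IsAlgClosed Λ]
    [IsAlgClosed Ω] (m N r : ℕ) (hm : Algebra.trdeg ℂ E = m) (hN : Algebra.trdeg ℂ Λ = N)
    (x : Fin m → E) (hx : IsTranscendenceBasis ℂ x) (g : ℕ) (hg : SepX x (fun _ => False) g)
    (s : Fin r → Ω) (hs : AlgebraicIndependent Λ s) (φ : E →ₐ[ℂ] Ω)
    (hfin : FiniteDimensional (IntermediateField.adjoin Λ (Set.range s))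
      (IntermediateField.adjoin (IntermediateField.adjoin Λ (Set.range s)) (Set.range φ)))
    (hdeg : finrank (IntermediateField.adjoin Λ (Set.range s))
      (IntermediateField.adjoin (IntermediateField.adjoin Λ (Set.range s)) (Set.range φ)) < g)
    (i : Fin r) (z : E) : IsAlgebraic (IntermediateField.adjoin Λ (s '' {j | j ≠ i})) (φ z) := by
  obtain ⟨B, hB1, hB2, hB3⟩ := clo (IntermediateField.adjoin Λ (s '' {j | j ≠ i}))
  obtain ⟨N', hN'⟩ := clo_fin hN (Set.toFinite (s '' {j | j ≠ i})) B hB2 fun y hy => (hB3 y).1 hy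
  -- the coordinate
  have hsi : Transcendental B (s i) := by
    have h1 : Transcendental (IntermediateField.adjoin Λ (s '' {j | j ≠ i})) (s i) := by
      rw [IntermediateField.transcendental_adjoin_iff]
      exact hs.transcendental_adjoin (by simp)
    intro h2
    apply h1
    let i1 : Algebra (IntermediateField.adjoin Λ (s '' {j | j ≠ i})) B :=
      (IntermediateField.inclusion hB2).toAlgebra
    have i2' : IsScalarTower (IntermediateField.adjoin Λ (s '' {j | j ≠ i})) B Ω :=
      IsScalarTower.of_algebraMap_eq fun _ => rfl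
    have i3 : Algebra.IsAlgebraic (IntermediateField.adjoin Λ (s '' {j | j ≠ i})) B := by
      refine ⟨fun y => ?_⟩
      exact (isAlgebraic_algebraMap_iff (algebraMap B Ω).injective).1 ((hB3 y).1 y.2)
    exact h2.restrictScalars _
  -- degrees
  have hmem : ∀ a ∈ IntermediateField.adjoin Λ (Set.range s), a ∈ B⟮s i⟯ := by
    have h1 : IntermediateField.adjoin Λ (Set.range s) ≤ (B⟮s i⟯).restrictScalars Λ := by
      rw [IntermediateField.adjoin_le_iff]
      rintro _ ⟨j, rfl⟩
      change s j ∈ B⟮s i⟯
      by_cases hj : j = i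
      · rw [hj]
        exact mem_adjoin_simple_self B (s i)
      · have h2 : s j ∈ B := hB2 (IntermediateField.subset_adjoin _ _ ⟨j, hj, rfl⟩)
        exact (B⟮s i⟯).algebraMap_mem ⟨s j, h2⟩
    exact fun a ha => h1 ha
  obtain ⟨hf1, hf2⟩ := adj_le (A0 := IntermediateField.adjoin Λ (Set.range s))
    (A := IntermediateField.adjoin (IntermediateField.adjoin Λ (Set.range s)) (Set.range φ))
    (R := B⟮s i⟯) (Ω := Ω) (algebraMap _ Ω) (fun a => ⟨⟨a, hmem a a.2⟩, rfl⟩)
  have hle : IntermediateField.adjoin B⟮s i⟯ (Set.range φ) ≤ IntermediateField.adjoin B⟮s i⟯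
      (Set.range (algebraMap (IntermediateField.adjoin
        (IntermediateField.adjoin Λ (Set.range s)) (Set.range φ)) Ω)) := by
    apply IntermediateField.adjoin.mono
    rintro _ ⟨w, rfl⟩
    exact ⟨⟨φ w, IntermediateField.subset_adjoin _ _ ⟨w, rfl⟩⟩, rfl⟩
  have hfin' : FiniteDimensional B⟮s i⟯ (IntermediateField.adjoin B⟮s i⟯ (Set.range φ)) :=
    FiniteDimensional.of_injective (IntermediateField.inclusion hle).toLinearMap
      (IntermediateField.inclusion hle).injective
  have hfr := IntermediateField.finrank_le_of_le_right hle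
  have hT : IsScalarTower ℂ B Ω := IsScalarTower.of_algebraMap_eq fun _ => rfl
  have h1 : IsAlgebraic B (φ z) :=
    h E B Ω m N' hm hN' x hx g hg (s i) hsi φ hfin' (lt_of_le_of_lt (hfr.trans hf2) hdeg) z
  have h2 := IsAlgClosed.degree_eq_one_of_irreducible B (minpoly.irreducible h1.isIntegral)
  obtain ⟨b, hb⟩ := minpoly.mem_range_of_degree_eq_one B (φ z) h2
  exact (hB3 _).1 (hb ▸ b.2)

/-- **Correspondences of small degree on unirational varieties are constant.** -/
theorem cstr (h : S_CST) : S_CSTR := by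
  intro E Λ Ω _ _ _ _ _ _ _ _ _ _ _ m N r hm hN x hx g hg s hs φ hfin hdeg z
  have h0 : CharZero Λ := charZero_of_injective_algebraMap (algebraMap ℂ Λ).injective
  by_contra hz
  have hdir := fun i => dir h E Λ Ω m N r hm hN x hx g hg s hs φ hfin hdeg i z
  -- the derivations
  choose Ds hDs using fun i => exists_der_indep (k := Λ) hs i
  have hD1 : AlgebraicIndependent Λ ![φ z] := algebraicIndependent_iff_transcendental.2 hz
  obtain ⟨D, hD⟩ := exists_der_indep (k := Λ) hD1 0
  have hDz : D (φ z) = 1 := by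
    have := hD 0
    rwa [if_pos rfl] at this
  have hDi : ∀ i, Ds i (φ z) = 0 := by
    intro i
    refine con_adjoin (Ds i) ?_ (hdir i)
    rintro _ ⟨j, hj, rfl⟩
    rw [hDs i j, if_neg (Ne.symm hj)]
  have halg : IsAlgebraic (IntermediateField.adjoin Λ (Set.range s)) (φ z) := by
    have h1 : IsAlgebraic (IntermediateField.adjoin Λ (Set.range s))
        (⟨φ z, IntermediateField.subset_adjoin _ _ ⟨z, rfl⟩⟩ :
          IntermediateField.adjoin (IntermediateField.adjoin Λ (Set.range s)) (Set.range φ)) :=
      Algebra.IsAlgebraic.isAlgebraic _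
    exact h1.algebraMap (A := Ω)
  have hsum : ∀ y, (∑ i, D (s i) • Ds i : Derivation Λ Ω Ω) y = ∑ i, D (s i) * Ds i y := by
    intro y
    have h5 : ∀ t : Finset (Fin r), (∑ i ∈ t, D (s i) • Ds i : Derivation Λ Ω Ω) y =
        ∑ i ∈ t, D (s i) * Ds i y := by
      intro t
      induction t using Finset.induction_on with
      | empty => rw [Finset.sum_empty, Finset.sum_empty, Derivation.coe_zero, Pi.zero_apply]
      | insert a t ha ih =>
        rw [Finset.sum_insert ha, Finset.sum_insert ha, Derivation.add_apply, ih,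
          Derivation.smul_apply, smul_eq_mul]
    exact h5 _
  have h2 : (D - ∑ i, D (s i) • Ds i) (φ z) = 0 := by
    refine con_adjoin _ ?_ halg
    rintro _ ⟨j, rfl⟩
    rw [Derivation.sub_apply, hsum]
    simp only [hDs]
    rw [Finset.sum_eq_single j]
    · rw [if_pos rfl, mul_one, sub_self]
    · intro i _ hij
      rw [if_neg hij, mul_zero]
    · intro h
      exact absurd (Finset.mem_univ _) h
  rw [Derivation.sub_apply, hsum] at h2
  simp only [hDi, mul_zero, Finset.sum_const_zero, sub_zero] at h2
  rw [hDz] at h2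
  exact one_ne_zero h2

end Pool.Agent.N27.SX
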